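import Mathlib
import Pool.Agent.Helper74.Hom.Geo4

/-!
# Star bodies, other than balls, that are homothetic to their intersection body of order `i`

For every `n ≥ 3`, every real `0 < i ≤ n - 1` (so for the whole range `1 ≤ i ≤ n - 1`) and every
`z ≠ 0` there is a star body `L` of `ℝⁿ`, centrally symmetric about `z`, which is not a ball and for
which `I_i L = -r z + r L` for some `r > 0`.
-/

set_option autoImplicit false

namespace Pool.Agent.Results.MP_0a1ca9_gt.TranslatedSolutions

open MeasureTheory Set Metric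

section Defs

variable {E : Type*} [NormedAddCommGroup E] [InnerProductSpace ℝ E]

/-- The radial function `ρ_L(u) = sup {c ≥ 0 : c u ∈ L}`. -/
noncomputable def radial (L : Set E) (u : E) : ℝ := sSup {c : ℝ | 0 ≤ c ∧ c • u ∈ L}

/-- A star body: a compact set, star-shaped with respect to the origin, whose radial function is
continuous on the unit sphere. -/
structure IsStarBody (L : Set E) : Prop where
  compact : IsCompact L
  zero_mem : (0 : E) ∈ L
  star : StarConvex ℝ 0 L
  cont : ContinuousOn (radial L) (sphere (0 : E) 1)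

/-- The hyperplane `u^⊥`. -/
noncomputable def hyperplane (u : E) : Submodule ℝ E := (Submodule.span ℝ {u})ᗮ

variable [FiniteDimensional ℝ E] [MeasurableSpace E] [BorelSpace E]

/-- The spherical Lebesgue measure on the unit sphere of the hyperplane `u^⊥`. -/
noncomputable def sphereMeasure (u : E) : Measure (sphere (0 : hyperplane u) 1) :=
  (volume : Measure (hyperplane u)).toSphere

/-- The radial function of the intersection body of order `i`:
`(1 / (n - 1)) ∫ ρ_L(v) ^ i dv`, the integral being taken over the unit sphere of the hyperplane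
`u^⊥` with respect to its spherical Lebesgue measure; `n` is the dimension of the space. -/
noncomputable def orderRadial (i : ℝ) (L : Set E) (u : E) : ℝ :=
  1 / ((Module.finrank ℝ E : ℝ) - 1) *
    ∫ v, (radial L ((v : hyperplane u) : E)) ^ i ∂(sphereMeasure u)

/-- The intersection body of order `i`: the star-shaped set with radial function
`orderRadial i L`. -/
def intersectionBody (i : ℝ) (L : Set E) : Set E :=
  {x | ∃ u ∈ sphere (0 : E) 1, ∃ c : ℝ, 0 ≤ c ∧ c ≤ orderRadial i L u ∧ x = c • u}

end Defs

/-- Let `n ≥ 3`, let `0 < i ≤ n - 1` be real and let `z ≠ 0` be a point of `ℝⁿ`.  There is a star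
body `L` of `ℝⁿ`, with the origin in its interior, such that `I_i L = -(r z) + r L` for some
`r > 0` (so `I_i L` is homothetic to `L`), `L` is centrally symmetric about `z`, and `L` is not a
ball. -/
theorem result {n : ℕ} (hn : 3 ≤ n) {i : ℝ} (hi : 0 < i) (hin : i ≤ (n : ℝ) - 1)
    (z : EuclideanSpace ℝ (Fin n)) (hz : z ≠ 0) :
    ∃ (L : Set (EuclideanSpace ℝ (Fin n))) (r : ℝ), IsStarBody L ∧ 0 ∈ interior L ∧ 0 < r ∧
      intersectionBody i L = (fun y => -(r • z) + r • y) '' L ∧
      (∀ y, y ∈ L ↔ (2 : ℝ) • z - y ∈ L) ∧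
      ∀ (c : EuclideanSpace ℝ (Fin n)) (R : ℝ), L ≠ closedBall c R := by
  obtain ⟨k, rfl⟩ : ∃ k : ℕ, n = k + 2 := ⟨n - 2, by omega⟩
  have hik : i ≤ (k : ℝ) + 1 := by
    push_cast at hin
    linarith
  obtain ⟨L, r, hL, h1, h2, h3, h4, h5⟩ := Helper74.Hom.main_all
    (E := EuclideanSpace ℝ (Fin (k + 2))) (by omega : 1 ≤ k) (by simp) hi hik z hz
  exact ⟨L, r, ⟨hL.compact, hL.zero_mem, hL.star, hL.cont⟩, h1, h2, h3, h4, h5⟩

end Pool.Agent.Results.MP_0a1ca9_gt.TranslatedSolutions
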